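import Pool.Agent.MP_74e98a_nt.H93.Defs
import Pool.Agent.MP_6f2ed2_nt.H1.Contour
import Pool.Agent.MP_ca0a54_nt.L0.ZetaA

/-! Basic facts on the entire function `xi` and a contour integral for even entire functions. -/

namespace Pool.Agent.MP_74e98a_nt.H50

open Complex MeasureTheory Filter Topology Set
open Pool.Agent.MP_6f2ed2_nt.H1 Pool.Agent.MP_74e98a_nt.H93

theorem xi_diff : Differentiable ℂ xi := by
  have := differentiable_completedZeta₀
  unfold xi
  fun_prop

theorem xi_symm (u : ℂ) : xi (1 - u) = xi u := by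
  unfold xi
  rw [completedRiemannZeta₀_one_sub]
  ring

theorem xi_eq (u : ℂ) (h0 : 0 < u.re) (h1 : u ≠ 1) :
    xi u = u * (1 - u) * Gammaℝ u * riemannZeta u := by
  have hu : u ≠ 0 := by
    rintro rfl
    simp at h0
  have hg := Gammaℝ_ne_zero_of_re_pos h0
  have h2 : (1 - u) ≠ 0 := sub_ne_zero.2 h1.symm
  rw [riemannZeta_def_of_ne_zero hu, completedRiemannZeta_eq]
  unfold xi
  field_simp
  ring

theorem Gammaℝ_conj (u : ℂ) : Gammaℝ ((starRingEnd ℂ) u) = (starRingEnd ℂ) (Gammaℝ u) := by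
  have h : ((Real.pi : ℂ)).arg ≠ Real.pi := by
    rw [arg_ofReal_of_nonneg Real.pi_pos.le]
    exact Real.pi_pos.ne
  rw [Gammaℝ_def, Gammaℝ_def, map_mul, ← Complex.Gamma_conj]
  have e1 : -(starRingEnd ℂ) u / 2 = (starRingEnd ℂ) (-u / 2) := by
    rw [map_div₀, map_neg, map_ofNat]
  have e2 : (starRingEnd ℂ) u / 2 = (starRingEnd ℂ) (u / 2) := by
    rw [map_div₀, map_ofNat]
  rw [e1, e2, cpow_conj _ _ h, conj_ofReal]

theorem xi_conj (u : ℂ) : xi ((starRingEnd ℂ) u) = (starRingEnd ℂ) (xi u) := by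
  have ha : AnalyticOnNhd ℂ (fun z => (starRingEnd ℂ) (xi ((starRingEnd ℂ) z))) univ :=
    DifferentiableOn.analyticOnNhd
      (fun z _ => (differentiableAt_conj_conj_iff.mpr (xi_diff _)).differentiableWithinAt)
      isOpen_univ
  have hb : AnalyticOnNhd ℂ xi univ := xi_diff.differentiableOn.analyticOnNhd isOpen_univ
  have hz : ∀ z : ℂ, 1 < z.re → (starRingEnd ℂ) (xi ((starRingEnd ℂ) z)) = xi z := by
    intro z hz
    have h1 : z ≠ 1 := by
      rintro rfl
      simp at hz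
    have h2 : (starRingEnd ℂ) z ≠ 1 := by
      intro h
      have := congrArg Complex.re h
      simp at this
      linarith
    rw [xi_eq _ (by simp; linarith) h2, xi_eq z (by linarith) h1, Gammaℝ_conj, riemannZeta_conj]
    simp
  have heq : EqOn (fun z => (starRingEnd ℂ) (xi ((starRingEnd ℂ) z))) xi univ :=
    ha.eqOn_of_preconnected_of_eventuallyEq hb isPreconnected_univ (mem_univ (2 : ℂ))
      (eventuallyEq_of_mem
        ((isOpen_lt continuous_const continuous_re).mem_nhds (by norm_num)) hz)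
  simpa using congrArg (starRingEnd ℂ) (heq (mem_univ u))

theorem xi_growth :
    ∃ C : ℝ, ∀ u : ℂ, 1 / 2 ≤ u.re → u.re ≤ 2 → ‖xi u‖ ≤ C * (1 + ‖u‖) ^ 3 := by
  have hc : ContinuousOn Real.Gamma (Icc (1 / 4 : ℝ) 1) := by
    intro x hx
    refine (Real.differentiableAt_Gamma fun m h => ?_).continuousAt.continuousWithinAt
    have h1 := hx.1
    have h2 : (0 : ℝ) ≤ m := Nat.cast_nonneg m
    linarith
  obtain ⟨G, hG⟩ := isCompact_Icc.exists_bound_of_continuousOn hc
  have hG0 : 0 ≤ G := (norm_nonneg _).trans (hG 1 ⟨by norm_num, le_rfl⟩)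
  have hZ := MP_ca0a54_nt.L0.ZetaA.Z_nonneg
  refine ⟨G * (MP_ca0a54_nt.L0.ZetaA.Z + 1) + 1, fun u h1 h2 => ?_⟩
  have hn := norm_nonneg u
  have hp : 1 ≤ (1 + ‖u‖) ^ 3 := one_le_pow₀ (by linarith)
  have hGZ : 0 ≤ G * (MP_ca0a54_nt.L0.ZetaA.Z + 1) := by positivity
  by_cases hu : u = 1
  · have : ‖xi u‖ = 1 := by
      rw [hu]
      simp [xi]
    rw [this]
    nlinarith
  have hs1 : u - 1 ≠ 0 := sub_ne_zero.2 hu
  have e : xi u = -(u * Gammaℝ u * riemannZeta₁ u) := by
    rw [xi_eq u (by linarith) hu, riemannZeta_eq_inv_sub_mul hu]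
    field_simp
    ring
  have b1 : ‖riemannZeta₁ u - 1‖ ≤ ‖u - 1‖ * ‖u‖ * MP_ca0a54_nt.L0.ZetaA.Z := by
    rw [← MP_ca0a54_nt.L0.ZetaA.tsum_tm u (by linarith), ← MP_ca0a54_nt.L0.ZetaA.tsum_Z', ← tsum_mul_left]
    exact tsum_of_norm_bounded (MP_ca0a54_nt.L0.ZetaA.summable_Z'.mul_left _).hasSum
      fun n => MP_ca0a54_nt.L0.ZetaA.norm_tm_le n u (by linarith)
  have b2 : ‖u - 1‖ ≤ 1 + ‖u‖ := (norm_sub_le _ _).trans (by simp [add_comm])
  have b3 : ‖riemannZeta₁ u‖ ≤ (MP_ca0a54_nt.L0.ZetaA.Z + 1) * (1 + ‖u‖) ^ 2 := by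
    have h := norm_add_le (riemannZeta₁ u - 1) 1
    simp only [sub_add_cancel, norm_one] at h
    have h3 : ‖u - 1‖ * ‖u‖ * MP_ca0a54_nt.L0.ZetaA.Z ≤ (1 + ‖u‖) * (1 + ‖u‖) * MP_ca0a54_nt.L0.ZetaA.Z := by
      gcongr
      linarith
    nlinarith
  have b4 : ‖Gammaℝ u‖ ≤ G := by
    rw [Gammaℝ_def, norm_mul, Complex.norm_cpow_eq_rpow_re_of_pos Real.pi_pos]
    have r1 : (u / 2).re = u.re / 2 := by simp
    have r2 : (-u / 2).re = -(u.re / 2) := by simp; ring
    have a1 : Real.pi ^ (-u / 2).re ≤ 1 := by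
      rw [r2]
      exact Real.rpow_le_one_of_one_le_of_nonpos (by linarith [Real.pi_gt_three]) (by linarith)
    have a2 : ‖Gamma (u / 2)‖ ≤ G := by
      refine (MP_ca0a54_nt.L0.ZetaA.norm_Gamma_le _ (by rw [r1]; linarith)).trans ?_
      rw [r1]
      exact (le_abs_self _).trans (hG _ ⟨by linarith, by linarith⟩)
    calc Real.pi ^ (-u / 2).re * ‖Gamma (u / 2)‖ ≤ 1 * G := by gcongr
      _ = G := one_mul _
  rw [e, norm_neg, norm_mul, norm_mul]
  calc ‖u‖ * ‖Gammaℝ u‖ * ‖riemannZeta₁ u‖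
      ≤ (1 + ‖u‖) * G * ((MP_ca0a54_nt.L0.ZetaA.Z + 1) * (1 + ‖u‖) ^ 2) := by
        gcongr
        linarith
    _ = G * (MP_ca0a54_nt.L0.ZetaA.Z + 1) * (1 + ‖u‖) ^ 3 := by ring
    _ ≤ _ := by nlinarith

theorem xi_facts : XiStmt := ⟨xi_diff, xi_symm, xi_conj, xi_eq, xi_growth⟩

theorem rect_simple (B : ℂ → ℂ) (hB : Differentiable ℂ B) (x₁ x₂ y₁ y₂ : ℝ)
    (h1 : x₁ < 0) (h2 : 0 < x₂) (h3 : y₁ < 0) (h4 : 0 < y₂) :
    rectInt (fun z => B z / z) x₁ x₂ y₁ y₂ = 2 * Real.pi * I * B 0 := by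
  have h := rectInt_residue (fun z => z * B z) (differentiable_id.mul hB) x₁ x₂ y₁ y₂ h1 h2 h3 h4
  have e : (fun z : ℂ => z * B z / z ^ 2) = fun z => B z / z := by
    funext z
    by_cases hz : z = 0
    · simp [hz]
    · field_simp
  have d : deriv (fun z : ℂ => z * B z) 0 = B 0 := by
    have := ((hasDerivAt_id' (0 : ℂ)).fun_mul (hB 0).hasDerivAt).deriv
    simpa using this
  rw [e, d] at h
  exact h

theorem norm_gauss (e x y : ℝ) :
    ‖cexp (e * ((x : ℂ) + y * I) ^ 2)‖ = Real.exp (e * (x ^ 2 - y ^ 2)) := by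
  rw [norm_exp]
  congr 1
  simp [pow_two]

theorem zz_eq (y : ℝ) : zz y = ((3 / 2 : ℝ) : ℂ) + y * I := by
  unfold zz
  push_cast
  ring

theorem zz_ne (y : ℝ) : zz y ≠ 0 := by
  rw [zz_eq]
  exact ne_zero_of_re (by norm_num)

theorem continuous_zz : Continuous zz := by
  unfold zz
  fun_prop

theorem norm_gauss_zz (e y : ℝ) (he : 0 ≤ e) (he1 : e ≤ 1) :
    ‖cexp (e * zz y ^ 2)‖ ≤ Real.exp (9 / 4) := by
  rw [zz_eq, norm_gauss]
  refine Real.exp_le_exp.2 ?_
  nlinarith [sq_nonneg y, mul_nonneg he (sq_nonneg y)]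

theorem tendsto_edge (C e : ℝ) (he : 0 < e) :
    Tendsto (fun Y : ℝ => C * Real.exp (C * Y) * Real.exp (e * (9 / 4 - Y ^ 2)) * 3) atTop
      (𝓝 0) := by
  have h1 : Tendsto (fun Y : ℝ => Y * (C - e * Y) + e * (9 / 4)) atTop atBot := by
    refine tendsto_atBot_add_const_right _ _ ?_
    refine Tendsto.atTop_mul_atBot₀ tendsto_id ?_
    exact tendsto_atBot_add_const_left _ _
      (tendsto_neg_atTop_atBot.comp (tendsto_id.const_mul_atTop he))
  have h2 := ((Real.tendsto_exp_atBot.comp h1).const_mul C).mul_const 3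
  simp only [mul_zero, zero_mul] at h2
  refine h2.congr fun Y => ?_
  simp only [Function.comp]
  rw [mul_assoc C (Real.exp _) (Real.exp _), ← Real.exp_add]
  congr 3
  ring

theorem contour_eps (A : ℂ → ℂ) (hA : Differentiable ℂ A) (hev : ∀ z, A (-z) = A z) (C : ℝ)
    (hC : ∀ z : ℂ, 0 ≤ z.re → z.re ≤ 3 / 2 → ‖A z‖ ≤ C * Real.exp (C * |z.im|))
    (hint : Integrable (fun y : ℝ => A (zz y) / zz y)) (e : ℝ) (he : 0 < e) (he1 : e ≤ 1) :
    ∫ y : ℝ, cexp (e * zz y ^ 2) * (A (zz y) / zz y) = Real.pi * A 0 := by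
  set f : ℂ → ℂ := fun z => A z * cexp (e * z ^ 2) / z with hf
  have hC' : ∀ z : ℂ, -(3 / 2) ≤ z.re → z.re ≤ 3 / 2 → ‖A z‖ ≤ C * Real.exp (C * |z.im|) := by
    intro z h1 h2
    rcases le_total 0 z.re with h | h
    · exact hC z h h2
    · have := hC (-z) (by simpa using h) (by simp; linarith)
      simpa [hev] using this
  have hC0 : 0 ≤ C := by
    have := (norm_nonneg _).trans (hC 0 (by simp) (by simp; norm_num))
    simpa using this
  have hodd : ∀ z, f (-z) = -f z := by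
    intro z
    simp only [hf, hev, neg_sq, div_neg]
  have hfz : ∀ y : ℝ, f (zz y) = cexp (e * zz y ^ 2) * (A (zz y) / zz y) := by
    intro y
    simp only [hf]
    ring
  have hi : Integrable fun y : ℝ => f (zz y) := by
    rw [funext hfz]
    refine hint.bdd_mul (c := Real.exp (9 / 4)) ?_
      (Eventually.of_forall fun y => norm_gauss_zz e y he.le he1)
    have := continuous_zz
    exact (by fun_prop : Continuous fun y : ℝ => cexp (e * zz y ^ 2)).aestronglyMeasurable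
  have edge : ∀ Y s : ℝ, 1 ≤ Y → |s| = Y →
      ‖∫ x : ℝ in (-(3 / 2) : ℝ)..(3 / 2 : ℝ), f (x + s * I)‖ ≤
        C * Real.exp (C * Y) * Real.exp (e * (9 / 4 - Y ^ 2)) * 3 := by
    intro Y s hY hs
    have := intervalIntegral.norm_integral_le_of_norm_le_const (a := (-(3 / 2) : ℝ))
      (b := (3 / 2 : ℝ)) (f := fun x : ℝ => f (x + s * I))
      (C := C * Real.exp (C * Y) * Real.exp (e * (9 / 4 - Y ^ 2))) (by
        intro x hx
        rw [uIoc_of_le (by norm_num)] at hx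
        have a1 := hC' (x + s * I) (by simpa using hx.1.le) (by simpa using hx.2)
        have a2 : ((x : ℂ) + s * I).im = s := by simp
        rw [a2, hs] at a1
        have a3 : 1 ≤ ‖(x : ℂ) + s * I‖ := by
          have := abs_im_le_norm ((x : ℂ) + s * I)
          rw [a2, hs] at this
          linarith
        have a4 : ‖cexp (e * ((x : ℂ) + s * I) ^ 2)‖ ≤ Real.exp (e * (9 / 4 - Y ^ 2)) := by
          rw [norm_gauss, ← hs, sq_abs]
          refine Real.exp_le_exp.2 (mul_le_mul_of_nonneg_left ?_ he.le)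
          nlinarith [hx.1, hx.2]
        simp only [hf]
        rw [norm_div, norm_mul]
        refine (div_le_self (by positivity) a3).trans ?_
        gcongr)
    refine this.trans (le_of_eq ?_)
    norm_num
  have main : ∀ Y : ℝ, 1 ≤ Y →
      ‖2 * I * (∫ y in (-Y)..Y, f (zz y)) - 2 * Real.pi * I * A 0‖ ≤
        C * Real.exp (C * Y) * Real.exp (e * (9 / 4 - Y ^ 2)) * 3 +
          C * Real.exp (C * Y) * Real.exp (e * (9 / 4 - Y ^ 2)) * 3 := by
    intro Y hY
    have r := rect_simple (fun z => A z * cexp (e * z ^ 2)) (by fun_prop) (-(3 / 2)) (3 / 2)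
      (-Y) Y (by norm_num) (by norm_num) (by linarith) (by linarith)
    have r0 : A 0 * cexp (e * (0 : ℂ) ^ 2) = A 0 := by simp
    simp only [r0] at r
    change rectInt f _ _ _ _ = _ at r
    unfold rectInt at r
    have l1 : (∫ y in (-Y)..Y, f (((-(3 / 2) : ℝ) : ℂ) + y * I)) = -∫ y in (-Y)..Y, f (zz y) := by
      have := intervalIntegral.integral_comp_neg (a := -Y) (b := Y) (fun y : ℝ => f (zz y))
      rw [neg_neg] at this
      rw [← this, ← intervalIntegral.integral_neg]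
      refine intervalIntegral.integral_congr fun y _ => ?_
      rw [← hodd, zz_eq]
      congr 1
      push_cast
      ring
    have l2 : (∫ y in (-Y)..Y, f (((3 / 2 : ℝ) : ℂ) + y * I)) = ∫ y in (-Y)..Y, f (zz y) := by
      simp_rw [zz_eq]
    rw [l1, l2] at r
    have e1 := edge Y (-Y) hY (by rw [abs_neg, abs_of_nonneg (by linarith)])
    have e2 := edge Y Y hY (abs_of_nonneg (by linarith))
    have : 2 * I * (∫ y in (-Y)..Y, f (zz y)) - 2 * Real.pi * I * A 0 =
        (∫ x : ℝ in (-(3 / 2) : ℝ)..(3 / 2 : ℝ), f (x + Y * I)) -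
          ∫ x : ℝ in (-(3 / 2) : ℝ)..(3 / 2 : ℝ), f (x + (-Y : ℝ) * I) := by
      linear_combination r
    rw [this]
    exact (norm_sub_le _ _).trans (add_le_add e2 e1)
  have lim1 : Tendsto (fun Y : ℝ => ‖2 * I * (∫ y in (-Y)..Y, f (zz y)) - 2 * Real.pi * I * A 0‖)
      atTop (𝓝 ‖2 * I * (∫ y : ℝ, f (zz y)) - 2 * Real.pi * I * A 0‖) :=
    (((intervalIntegral_tendsto_integral hi tendsto_neg_atTop_atBot tendsto_id).const_mul
      _).sub_const _).norm
  have lim2 := (tendsto_edge C e he).add (tendsto_edge C e he)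
  rw [add_zero] at lim2
  have h0 := le_of_tendsto_of_tendsto lim1 lim2 ((eventually_ge_atTop 1).mono main)
  have h1 := norm_le_zero_iff.1 h0
  simp_rw [← hfz]
  have h2 : 2 * I * ((∫ y : ℝ, f (zz y)) - Real.pi * A 0) = 0 := by linear_combination h1
  rcases mul_eq_zero.1 h2 with h | h
  · exact absurd h (mul_ne_zero two_ne_zero I_ne_zero)
  · exact sub_eq_zero.1 h

theorem contour : ContourStmt := by
  rintro A hA hev ⟨C, hC⟩ hint
  have key : ∀ n : ℕ, ∫ y : ℝ, cexp ((1 / ((n : ℝ) + 1) : ℝ) * zz y ^ 2) * (A (zz y) / zz y) =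
      Real.pi * A 0 := by
    intro n
    have h0 : (0 : ℝ) ≤ n := Nat.cast_nonneg n
    exact contour_eps A hA hev C hC hint _ (by positivity)
      ((div_le_one (by positivity)).2 (by linarith))
  have hz := continuous_zz
  have lim := tendsto_integral_of_dominated_convergence (μ := volume)
    (F := fun (n : ℕ) (y : ℝ) => cexp ((1 / ((n : ℝ) + 1) : ℝ) * zz y ^ 2) * (A (zz y) / zz y))
    (f := fun y : ℝ => A (zz y) / zz y) (fun y => Real.exp (9 / 4) * ‖A (zz y) / zz y‖)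
    (fun n => (Continuous.aestronglyMeasurable (by fun_prop)).mul hint.aestronglyMeasurable)
    (hint.norm.const_mul _)
    (fun n => Eventually.of_forall fun y => by
      have h0 : (0 : ℝ) ≤ n := Nat.cast_nonneg n
      rw [norm_mul]
      exact mul_le_mul_of_nonneg_right (norm_gauss_zz _ y (by positivity)
        ((div_le_one (by positivity)).2 (by linarith))) (norm_nonneg _))
    (Eventually.of_forall fun y => by
      have h1 : Tendsto (fun n : ℕ => ((1 / ((n : ℝ) + 1) : ℝ) : ℂ)) atTop (𝓝 ((0 : ℝ) : ℂ)) :=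
        (continuous_ofReal.tendsto 0).comp tendsto_one_div_add_atTop_nhds_zero_nat
      have h2 := ((h1.mul_const (zz y ^ 2)).cexp).mul_const (A (zz y) / zz y)
      simpa using h2)
  simp_rw [key] at lim
  exact tendsto_nhds_unique lim tendsto_const_nhds

end Pool.Agent.MP_74e98a_nt.H50
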